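import Pool.Agent.H508R3.AT.Asm
import Pool.Agent.H508R3.AT.T6
import Pool.Agent.H721R3.AT_T0
import Pool.Agent.H337R3.AT_T1
import Pool.Agent.H77R3.AT.T2a
import Pool.Agent.H589R3.AT_T2b
import Pool.Agent.H115R3.AT.AT_T3
import Pool.Agent.H8R3.AT_T4
import Pool.Agent.H345R3.AT_T5
import Pool.Agent.H217R3.AT_T7
import Pool.Agent.H378R3.AT_T8a
import Pool.Agent.H220R3.AT_T8b
import Pool.Agent.H941R3.AT.T9a
import Pool.Agent.H791R3.AT.AT_T10
import Pool.Agent.H449R3.AT_T9
import Pool.Agent.H54R3.Spec508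

/-!
# Singular spectrum of the Anderson model on antitrees

If the sum of `1 / s_n` diverges then, for every single-site distribution and every disorder, the
Anderson model on the antitree almost surely has no absolutely continuous spectrum.

Idea of the proof. If a spectral measure is not singular then the solutions `p_n(E)` of the
effective recursion `u_{n+1} = u_n / Y_n(E) - u_{n-1}`, with `Y_n(E)` the average of
`1 / (E - λ v)` over the shell `n`, are bounded for most energies of a small interval, uniformly in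
`n`. A zero-one step and a resampling of one shell show that then the transfer matrices themselves
are bounded with positive probability. But the random shears in these matrices strictly decrease,
by a quantity of order `1 / s_n` at the step `n`, the `L²` norm of the density of the image of the
uniform distribution on the unit disc, so that the sum of `1 / s_n` is finite.
-/

set_option autoImplicit false

open MeasureTheory Filter Topology

namespace Pool.Agent.Results.MP_b6e843_mp.SingularSpectrum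

open Pool.Agent.H695R3.AT

/-- The single-site distributions of the problem: probability measures supported in `[-1, 1]` with
mean `0` and variance in `(0, 1]`. -/
def IsLaw (Pv : Measure ℝ) : Prop :=
  IsProbabilityMeasure Pv ∧ Pv (Set.Icc (-1) 1)ᶜ = 0 ∧ ∫ t, t ∂Pv = 0 ∧
    0 < ∫ t, t ^ 2 ∂Pv ∧ ∫ t, t ^ 2 ∂Pv ≤ 1

/-- The distribution of an i.i.d. potential on the antitree: the product measure. -/
noncomputable def iidLaw (s : ℕ → ℕ) (Pv : Measure ℝ) : Measure (Vtx s → ℝ) :=
  Measure.infinitePi fun _ : Vtx s => Pv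

/-- `ν` is the spectral measure of `H` for the vector `ψ`: a finite measure on the real line with
`∫ f dν = ⟪ψ, f(H) ψ⟫` for all continuous `f`. -/
def IsSpectralMeasure {X : Type} [NormedAddCommGroup X] [InnerProductSpace ℂ X] [CompleteSpace X]
    (H : X →L[ℂ] X) (ψ : X) (ν : Measure ℝ) : Prop :=
  IsFiniteMeasure ν ∧ ∀ f : ℝ → ℝ, Continuous f →
    Integrable f ν ∧ ((∫ x, f x ∂ν : ℝ) : ℂ) = inner ℂ ψ (cfc f H ψ)

/-- The spectrum of `H` is singular: every vector has a spectral measure, and it is singular with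
respect to Lebesgue measure. -/
def IsSingular {X : Type} [NormedAddCommGroup X] [InnerProductSpace ℂ X] [CompleteSpace X]
    (H : X →L[ℂ] X) : Prop :=
  ∀ ψ : X, (∃ ν : Measure ℝ, IsSpectralMeasure H ψ ν) ∧
    ∀ ν : Measure ℝ, IsSpectralMeasure H ψ ν → ν ⟂ₘ volume

lemma goodLaw {Pv : Measure ℝ} (h : IsLaw Pv) : Pool.Agent.H508R3.AT.GoodLaw Pv := by
  obtain ⟨h1, h2, h3, h4, -⟩ := h
  refine ⟨h1, h2, fun c => ?_⟩
  by_contra hc
  have hc1 : Pv {c} = 1 := le_antisymm prob_le_one (not_lt.mp hc)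
  have hae : ∀ᵐ t ∂Pv, t = c := by
    have : Pv {c}ᶜ = 0 := (prob_compl_eq_zero_iff (measurableSet_singleton c)).mpr hc1
    rw [ae_iff]
    exact this
  have e1 : ∫ t, t ∂Pv = c := by
    rw [integral_congr_ae (g := fun _ => c) hae]
    simp
  have e2 : ∫ t, t ^ 2 ∂Pv = c ^ 2 := by
    rw [integral_congr_ae (g := fun _ => c ^ 2) (hae.mono fun t ht => by simp only [ht])]
    simp
  rw [e1] at h3
  rw [e2, h3] at h4
  norm_num at h4

/-- **Answer to Q1.** If `∑ 1 / s_n = ∞` then for every single-site distribution and every `λ > 0`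
the Anderson model on the antitree almost surely has singular spectrum. -/
theorem result (Pv : Measure ℝ) (hPv : IsLaw Pv) (s : ℕ → ℕ) (hs : ∀ n, 0 < s n)
    (hsum : ¬ Summable fun n => 1 / (s n : ℝ)) (lam : ℝ) (hlam : 0 < lam) :
    ∀ᵐ v ∂(iidLaw s Pv), (∃ H : L2 s →L[ℂ] L2 s, IsAnderson s lam v H) ∧
      ∀ H : L2 s →L[ℂ] L2 s, IsAnderson s lam v H → IsSelfAdjoint H ∧ IsSingular H := by
  have h0 := Pool.Agent.H721R3.ATT0.t0
  have h3 := Pool.Agent.H115R3.AT.t3 h0
  have h4 := Pool.Agent.H8R3.AT.t4 h0 h3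
  have h6 := Pool.Agent.H508R3.AT.t6 h4 Pool.Agent.H345R3.AT5.t5
  have h8a := Pool.Agent.H378R3.ATT8a.t8a
  have h8b := Pool.Agent.H220R3.AT.t8b h0 h8a
  have h9 := Pool.Agent.H449R3.AT.t9 Pool.Agent.H941R3.AT.t9a Pool.Agent.H791R3.AT.t10
  have hgoal := Pool.Agent.H508R3.AT.final Pool.Agent.H337R3.AT1.t1 Pool.Agent.H77R3.AT2a.t2a
    Pool.Agent.H589R3.AT.t2b h6 Pool.Agent.H217R3.AT7.t7 h8a h8b h9 Pv (goodLaw hPv) s hs hsum
    lam hlam
  have hPr := hPv.1
  have hv1 : ∀ᵐ t ∂Pv, |t| ≤ 1 := by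
    rw [ae_iff]
    refine measure_mono_null (fun t ht => ?_) hPv.2.1
    intro hc
    exact ht (abs_le.2 hc)
  have hae : ∀ᵐ v ∂(Measure.infinitePi fun _ : Vtx s => Pv), ∀ x : Vtx s, |v x| ≤ 1 := by
    rw [ae_all_iff]
    intro x
    exact (measurePreserving_eval_infinitePi (fun _ : Vtx s => Pv) x).quasiMeasurePreserving.ae hv1
  have hgoal' : ∀ᵐ v ∂(Measure.infinitePi fun _ : Vtx s => Pv), ∀ H : L2 s →L[ℂ] L2 s,
      IsAnderson s lam v H → ∀ (ψ : L2 s) (ν : Measure ℝ), Pool.Agent.H508R3.AT.IsSpec H ψ ν →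
      ν ⟂ₘ volume := hgoal
  unfold iidLaw
  filter_upwards [hae, hgoal'] with v hv hv2
  refine ⟨exists_anderson lam zero_le_one hv, fun H hH => ?_⟩
  have hsa := isSelfAdjoint_anderson hH
  refine ⟨hsa, fun ψ => ⟨?_, fun ν hν => hv2 H hH ψ ν hν⟩⟩
  obtain ⟨ν, e1, -, -, e4, -⟩ := Pool.Agent.H54R3.Spec508.exists_spectral H hsa ψ
  exact ⟨ν, e1, e4⟩

end Pool.Agent.Results.MP_b6e843_mp.SingularSpectrum
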